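import Pool.Agent.Helper40.OL.Spec

/-!
# Part PL: the elements of `Gam 1` are piecewise linear
-/

set_option autoImplicit false
set_option linter.all false

namespace Pool.Agent.Helper61.OL

open Pool.Agent.Helper40.OL

/-- slopes `2 ^ ρ` on the right and `2 ^ l` on the left -/
def Sl (h : ℝ → ℝ) (s : ℝ) (ρ l : ℤ) : Prop := ∃ ε : ℝ, 0 < ε ∧
    (∀ t : ℝ, s ≤ t → t ≤ s + ε → h t = h s + (2 : ℝ) ^ ρ * (t - s)) ∧
    (∀ t : ℝ, s - ε ≤ t → t ≤ s → h t = h s + (2 : ℝ) ^ l * (t - s))

theorem inv_app (e : Equiv.Perm ℝ) (s : ℝ) : e⁻¹ (e s) = s := e.symm_apply_apply s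

theorem app_inv (e : Equiv.Perm ℝ) (s : ℝ) : e (e⁻¹ s) = s := e.apply_symm_apply s

theorem two_pos (ρ : ℤ) : (0 : ℝ) < (2 : ℝ) ^ ρ := zpow_pos (by norm_num) ρ

theorem Sl.comp {h k : ℝ → ℝ} {s : ℝ} {ρ l ρ' l' : ℤ} (h1 : Sl h s ρ l) (h2 : Sl k (h s) ρ' l') :
    Sl (fun x => k (h x)) s (ρ + ρ') (l + l') := by
  obtain ⟨ε, hε, hr, hl⟩ := h1
  obtain ⟨δ, hδ, kr, kl⟩ := h2
  have p1 := two_pos ρ
  have p2 := two_pos l
  refine ⟨min ε (min (δ / (2 : ℝ) ^ ρ) (δ / (2 : ℝ) ^ l)), by positivity, ?_, ?_⟩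
  · intro t ht1 ht2
    have a1 : t ≤ s + ε := ht2.trans (by gcongr; exact min_le_left _ _)
    have a2 : t - s ≤ δ / (2 : ℝ) ^ ρ := by
      have : min ε (min (δ / (2 : ℝ) ^ ρ) (δ / (2 : ℝ) ^ l)) ≤ δ / (2 : ℝ) ^ ρ :=
        (min_le_right _ _).trans (min_le_left _ _)
      linarith
    have a3 : (2 : ℝ) ^ ρ * (t - s) ≤ δ := by
      rw [le_div_iff₀ p1] at a2
      linarith
    have a4 : 0 ≤ (2 : ℝ) ^ ρ * (t - s) := mul_nonneg p1.le (by linarith)
    have e1 := hr t ht1 a1
    show k (h t) = k (h s) + _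
    rw [kr (h t) (by linarith) (by linarith), e1, zpow_add₀ (by norm_num : (2 : ℝ) ≠ 0)]
    ring
  · intro t ht1 ht2
    have a1 : s - ε ≤ t := by
      have := min_le_left ε (min (δ / (2 : ℝ) ^ ρ) (δ / (2 : ℝ) ^ l))
      linarith
    have a2 : s - t ≤ δ / (2 : ℝ) ^ l := by
      have : min ε (min (δ / (2 : ℝ) ^ ρ) (δ / (2 : ℝ) ^ l)) ≤ δ / (2 : ℝ) ^ l :=
        (min_le_right _ _).trans (min_le_right _ _)
      linarith
    have a3 : (2 : ℝ) ^ l * (s - t) ≤ δ := by
      rw [le_div_iff₀ p2] at a2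
      linarith
    have a4 : 0 ≤ (2 : ℝ) ^ l * (s - t) := mul_nonneg p2.le (by linarith)
    have e1 := hl t a1 ht2
    show k (h t) = k (h s) + _
    rw [kl (h t) (by nlinarith) (by nlinarith), e1, zpow_add₀ (by norm_num : (2 : ℝ) ≠ 0)]
    ring

theorem Sl.inv {e : Equiv.Perm ℝ} {s : ℝ} {ρ l : ℤ} (h1 : Sl (fun x => e⁻¹ x) (e s) ρ l) :
    Sl (fun x => e x) s (-ρ) (-l) := by
  obtain ⟨ε, hε, hr, hl⟩ := h1
  have p1 := two_pos ρ
  have p2 := two_pos l
  have es : e⁻¹ (e s) = s := inv_app e s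
  simp only [es] at hr hl
  refine ⟨min (ε * (2 : ℝ) ^ ρ) (ε * (2 : ℝ) ^ l), by positivity, ?_, ?_⟩
  · intro t ht1 ht2
    have a2 : t - s ≤ ε * (2 : ℝ) ^ ρ := by
      have := min_le_left (ε * (2 : ℝ) ^ ρ) (ε * (2 : ℝ) ^ l)
      linarith
    set u := e s + (2 : ℝ) ^ (-ρ) * (t - s) with hu
    have pn : (0 : ℝ) < (2 : ℝ) ^ (-ρ) := two_pos _
    have a3 : (2 : ℝ) ^ (-ρ) * (t - s) ≤ ε := by
      rw [zpow_neg, inv_mul_le_iff₀ p1]
      linarith
    have a4 : 0 ≤ (2 : ℝ) ^ (-ρ) * (t - s) := mul_nonneg pn.le (by linarith)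
    have e1 := hr u (by linarith) (by linarith)
    have e2 : e⁻¹ u = t := by
      rw [e1, hu]
      have : (2 : ℝ) ^ ρ * ((2 : ℝ) ^ (-ρ) * (t - s)) = t - s := by
        rw [← mul_assoc, zpow_neg, mul_inv_cancel₀ p1.ne', one_mul]
      have e3 : (2 : ℝ) ^ ρ * (e s + (2 : ℝ) ^ (-ρ) * (t - s) - e s) = t - s := by
        rw [add_sub_cancel_left]; exact this
      rw [e3]; ring
    show e t = u
    rw [← e2]
    exact app_inv e u
  · intro t ht1 ht2
    have a2 : s - t ≤ ε * (2 : ℝ) ^ l := by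
      have := min_le_right (ε * (2 : ℝ) ^ ρ) (ε * (2 : ℝ) ^ l)
      linarith
    set u := e s + (2 : ℝ) ^ (-l) * (t - s) with hu
    have pn : (0 : ℝ) < (2 : ℝ) ^ (-l) := two_pos _
    have a3 : (2 : ℝ) ^ (-l) * (s - t) ≤ ε := by
      rw [zpow_neg, inv_mul_le_iff₀ p2]
      linarith
    have a4 : 0 ≤ (2 : ℝ) ^ (-l) * (s - t) := mul_nonneg pn.le (by linarith)
    have e1 := hl u (by rw [hu]; nlinarith) (by rw [hu]; nlinarith)
    have e2 : e⁻¹ u = t := by
      rw [e1, hu]
      have : (2 : ℝ) ^ l * ((2 : ℝ) ^ (-l) * (t - s)) = t - s := by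
        rw [← mul_assoc, zpow_neg, mul_inv_cancel₀ p2.ne', one_mul]
      have e3 : (2 : ℝ) ^ l * (e s + (2 : ℝ) ^ (-l) * (t - s) - e s) = t - s := by
        rw [add_sub_cancel_left]; exact this
      rw [e3]; ring
    show e t = u
    rw [← e2]
    exact app_inv e u

/-- piecewise linear elements, without a condition on the support -/
structure P0 (g : E) : Prop where
  mono : StrictMono g.f
  fd : {s : ℝ | g.d s ≠ 0}.Finite
  fm : {p : ℝ × ℝ | g.m p.1 p.2 ≠ 0}.Finite
  sl : ∀ s : ℝ, ∃ ρ l : ℤ, g.d s = ρ - l ∧ Sl (fun x => g.f⁻¹ x) s ρ l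

theorem P0.mul {a b : E} (ha : P0 a) (hb : P0 b) : P0 (a * b) := by
  have hinj : Function.Injective (fun x : ℝ => a.f⁻¹ x) := (a.f⁻¹).injective
  refine ⟨?_, ?_, ?_, ?_⟩
  · intro x y hxy
    exact ha.mono (hb.mono hxy)
  · refine (ha.fd.union (hb.fd.preimage hinj.injOn)).subset ?_
    intro s hs
    by_contra hcon
    simp only [Set.mem_union, Set.mem_setOf_eq, Set.mem_preimage, not_or, not_not] at hcon
    apply hs
    rw [E.mul_d, hcon.1, hcon.2, add_zero]
  · have hinj2 : Function.Injective (fun p : ℝ × ℝ => (a.f⁻¹ p.1, a.f⁻¹ p.2)) := by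
      intro p q hpq
      simp only [Prod.mk.injEq, EmbeddingLike.apply_eq_iff_eq] at hpq
      exact Prod.ext hpq.1 hpq.2
    refine ((ha.fm.union (hb.fm.preimage hinj2.injOn)).union
      (ha.fd.prod (hb.fd.preimage hinj.injOn))).subset ?_
    intro p hp
    by_contra hcon
    simp only [Set.mem_union, Set.mem_setOf_eq, Set.mem_preimage, Set.mem_prod, not_or, not_not,
      not_and_or] at hcon
    apply hp
    rw [E.mul_m, hcon.1.1, hcon.1.2]
    rcases hcon.2 with h | h
    · rw [h]; simp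
    · rw [h]; simp
  · intro s
    obtain ⟨ρ, l, h1, h2⟩ := ha.sl s
    obtain ⟨ρ', l', h3, h4⟩ := hb.sl (a.f⁻¹ s)
    refine ⟨ρ + ρ', l + l', ?_, ?_⟩
    · rw [E.mul_d, h1, h3]; ring
    · have := Sl.comp h2 h4
      have e : (fun x => (a * b).f⁻¹ x) = fun x => b.f⁻¹ (a.f⁻¹ x) := by
        funext x
        rw [E.mul_f, mul_inv_rev]
        rfl
      rw [e]
      exact this

theorem P0.inv {a : E} (ha : P0 a) : P0 a⁻¹ := by
  have hinj : Function.Injective (fun x : ℝ => a.f x) := a.f.injective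
  refine ⟨?_, ?_, ?_, ?_⟩
  · intro x y hxy
    show a.f⁻¹ x < a.f⁻¹ y
    rw [← ha.mono.lt_iff_lt, app_inv, app_inv]
    exact hxy
  · refine (ha.fd.preimage hinj.injOn).subset ?_
    intro s hs h0
    apply hs
    rw [E.inv_d, h0, neg_zero]
  · have hinj2 : Function.Injective (fun p : ℝ × ℝ => (a.f p.1, a.f p.2)) := by
      intro p q hpq
      simp only [Prod.mk.injEq, EmbeddingLike.apply_eq_iff_eq] at hpq
      exact Prod.ext hpq.1 hpq.2
    refine ((ha.fm.preimage hinj2.injOn).union
      ((ha.fd.preimage hinj.injOn).prod (ha.fd.preimage hinj.injOn))).subset ?_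
    intro p hp
    by_contra hcon
    simp only [Set.mem_union, Set.mem_setOf_eq, Set.mem_preimage, Set.mem_prod, not_or, not_not,
      not_and_or] at hcon
    apply hp
    rw [E.inv_m, hcon.1]
    rcases hcon.2 with h | h
    · rw [h]; simp
    · rw [h]; simp
  · intro s
    obtain ⟨ρ, l, h1, h2⟩ := ha.sl (a.f s)
    refine ⟨-ρ, -l, ?_, ?_⟩
    · rw [E.inv_d, h1]; ring
    · have := Sl.inv h2
      have e : (fun x => (a⁻¹).f⁻¹ x) = fun x => a.f x := by
        funext x
        rw [E.inv_f, inv_inv]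
      rw [e]
      exact this

theorem P0.base {n : ℕ} {g : E} (hg : g ∈ K n) : P0 g := by
  obtain ⟨h1, h2, h3⟩ := hg
  refine ⟨?_, ?_, ?_, ?_⟩
  · rw [h1]; exact strictMono_id
  · have : {s : ℝ | g.d s ≠ 0} = ∅ := by
      ext s; simp [h2 s]
    rw [this]; exact Set.finite_empty
  · have hfin : {s : ℝ | NatLe n s}.Finite := by
      refine ((Set.finite_Iic n).image (fun k : ℕ => (k : ℝ))).subset ?_
      rintro s ⟨k, hk, rfl⟩
      exact ⟨k, hk, rfl⟩
    refine (hfin.prod hfin).subset ?_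
    intro p hp
    exact h3 _ _ hp
  · intro s
    refine ⟨0, 0, by rw [h2]; ring, 1, one_pos, ?_, ?_⟩
    · intro t _ _
      simp [h1]
    · intro t _ _
      simp [h1]

theorem P0.tau (i : ℕ) : P0 (tau i) := by
  refine ⟨?_, ?_, ?_, ?_⟩
  · intro x y hxy
    show tg i x < tg i y
    unfold tg
    split_ifs <;> linarith
  · refine ((Set.finite_singleton ((i : ℝ))).union (Set.finite_singleton ((i : ℝ) + 1))).subset ?_
    intro s hs
    by_contra hcon
    simp only [Set.mem_union, Set.mem_singleton_iff, not_or] at hcon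
    apply hs
    show (if s = (i : ℝ) then (1 : ℤ) else 0) - (if s = (i : ℝ) + 1 then 1 else 0) = 0
    rw [if_neg hcon.1, if_neg hcon.2, sub_zero]
  · have : {p : ℝ × ℝ | (Pool.Agent.Helper40.OL.tau i).m p.1 p.2 ≠ 0} = ∅ := by
      ext p
      simp [Pool.Agent.Helper40.OL.tau]
    rw [this]; exact Set.finite_empty
  · intro s
    have hd : (Pool.Agent.Helper40.OL.tau i).d s =
      (if s = (i : ℝ) then (1 : ℤ) else 0) - (if s = (i : ℝ) + 1 then 1 else 0) := rfl
    have hf : (fun x => (Pool.Agent.Helper40.OL.tau i).f⁻¹ x) = sg i := rfl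
    rw [hd, hf]
    rcases lt_trichotomy s (i : ℝ) with h | h | h
    · refine ⟨0, 0, ?_, i - s, by linarith, ?_, ?_⟩
      · rw [if_neg h.ne, if_neg (by linarith)]
      · intro t h1 h2
        have e1 : sg i t = t := if_pos (by linarith)
        have e2 : sg i s = s := if_pos (by linarith)
        rw [e1, e2]; simp
      · intro t h1 h2
        have e1 : sg i t = t := if_pos (by linarith)
        have e2 : sg i s = s := if_pos (by linarith)
        rw [e1, e2]; simp
    · refine ⟨1, 0, ?_, 1, one_pos, ?_, ?_⟩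
      · rw [if_pos h, if_neg (by linarith)]
      · intro t h1 h2
        have e2 : sg i s = s := if_pos (by linarith)
        have e1 : sg i t = s + 2 * (t - s) := by
          unfold sg
          split_ifs <;> linarith
        rw [e1, e2]; simp
      · intro t h1 h2
        have e1 : sg i t = t := if_pos (by linarith)
        have e2 : sg i s = s := if_pos (by linarith)
        rw [e1, e2]; simp
    · rcases lt_trichotomy s ((i : ℝ) + 1) with h' | h' | h'
      · refine ⟨1, 1, ?_, min (s - i) (i + 1 - s), by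
          apply lt_min <;> linarith, ?_, ?_⟩
        · rw [if_neg h.ne', if_neg h'.ne]; norm_num
        · intro t h1 h2
          have h3 := min_le_right (s - (i : ℝ)) (i + 1 - s)
          have e2 : sg i s = 2 * s - i := by
            unfold sg
            split_ifs <;> linarith
          have e1 : sg i t = 2 * t - i := by
            unfold sg
            split_ifs <;> linarith
          rw [e1, e2, zpow_one]; ring
        · intro t h1 h2
          have h3 := min_le_left (s - (i : ℝ)) (i + 1 - s)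
          have e2 : sg i s = 2 * s - i := by
            unfold sg
            split_ifs <;> linarith
          have e1 : sg i t = 2 * t - i := by
            unfold sg
            split_ifs <;> linarith
          rw [e1, e2, zpow_one]; ring
      · refine ⟨0, 1, ?_, 1, one_pos, ?_, ?_⟩
        · rw [if_neg h.ne', if_pos h']
        · intro t h1 h2
          have e2 : sg i s = s + 1 := by
            unfold sg
            split_ifs <;> linarith
          have e1 : sg i t = t + 1 := by
            unfold sg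
            split_ifs <;> linarith
          rw [e1, e2, zpow_zero]; ring
        · intro t h1 h2
          have e2 : sg i s = 2 * s - i := by
            unfold sg
            split_ifs <;> linarith
          have e1 : sg i t = 2 * t - i := by
            unfold sg
            split_ifs <;> linarith
          rw [e1, e2, zpow_one]; ring
      · refine ⟨0, 0, ?_, s - (i + 1), by linarith, ?_, ?_⟩
        · rw [if_neg h.ne', if_neg h'.ne']
        · intro t h1 h2
          have e2 : sg i s = s + 1 := by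
            unfold sg
            split_ifs <;> linarith
          have e1 : sg i t = t + 1 := by
            unfold sg
            split_ifs <;> linarith
          rw [e1, e2, zpow_zero]; ring
        · intro t h1 h2
          have e2 : sg i s = s + 1 := by
            unfold sg
            split_ifs <;> linarith
          have e1 : sg i t = t + 1 := by
            unfold sg
            split_ifs <;> linarith
          rw [e1, e2, zpow_zero]; ring

theorem P0.fo {n N : ℕ} {g : E} (h : Fo n N g) : P0 g := by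
  induction h with
  | base h => exact P0.base h
  | step hi _ ih => exact (P0.tau _).mul ih

theorem fo_ends {n N : ℕ} {g : E} (h : Fo n N g) :
    (∀ x : ℝ, x ≤ 0 → g.f x = x) ∧ (∀ x : ℝ, N ≤ x → g.f x = x - N + n) := by
  induction h with
  | base h =>
    refine ⟨fun x _ => ?_, fun x _ => ?_⟩
    · rw [h.1]; rfl
    · rw [h.1, Equiv.Perm.one_apply]; ring
  | @step n N i g hi _ ih =>
    obtain ⟨ih1, ih2⟩ := ih
    have hin : (i : ℝ) + 1 ≤ n := by exact_mod_cast hi
    refine ⟨fun x hx => ?_, fun x hx => ?_⟩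
    · show tg i (g.f x) = x
      rw [ih1 x hx]
      exact if_pos (hx.trans (Nat.cast_nonneg i))
    · show tg i (g.f x) = _
      rw [ih2 x hx]
      push_cast
      unfold tg
      split_ifs <;> linarith

theorem pl_thm (hG : S_GAM) : S_PL := by
  intro g hg
  have h1 : g ∈ GamSet 1 := by
    rw [← hG 1]; exact hg
  obtain ⟨⟨N, p, q, hp, hq, hpq⟩, -⟩ := h1
  have hg' : g = q * p⁻¹ := by rw [← hpq]; group
  have h0 : P0 g := by
    rw [hg']
    exact (P0.fo hq).mul (P0.fo hp).inv
  refine ⟨h0.mono, ?_, h0.fd, h0.fm, h0.sl⟩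
  have key : ∀ x, g.f (p.f x) = q.f x := by
    intro x
    rw [← hpq]
    rfl
  obtain ⟨p1, p2⟩ := fo_ends hp
  obtain ⟨q1, q2⟩ := fo_ends hq
  rintro s (hs | hs)
  · have := key s
    rw [p1 s hs, q1 s hs] at this
    exact this
  · have := key (s + N - 1)
    rw [p2 _ (by linarith), q2 _ (by linarith)] at this
    have e : s + (N : ℝ) - 1 - N + ((1 : ℕ) : ℝ) = s := by push_cast; ring
    rw [e] at this
    exact this

end Pool.Agent.Helper61.OL
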